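import Mathlib

/-! A Galois number field containing given algebraic numbers. -/

set_option autoImplicit false

namespace Pool.Agent.TH120.Sec

open Polynomial

universe u

lemma exists_L_aux (Ω : Type) [Field Ω] [Algebra ℚ Ω] [IsAlgClosure ℚ Ω] [IsAlgClosed Ω]
    [IsGalois ℚ Ω]
    (K : Type u) [Field K] [NumberField K] (s₀ : Set (AlgebraicClosure K)) (hs₀ : s₀.Finite)
    (σ : AlgebraicClosure K ≃ₐ[K] AlgebraicClosure K) :
    ∃ (L : Type) (_ : Field L) (_ : NumberField L) (_ : IsGalois ℚ L) (i : K →+* L)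
      (τ : L ≃ₐ[ℚ] L) (κ : L →+* AlgebraicClosure K),
      (∀ x, κ (i x) = algebraMap K (AlgebraicClosure K) x) ∧ (∀ x, κ (τ x) = σ (κ x)) ∧
        ∀ x ∈ s₀, ∃ y : L, κ y = x := by
  classical
  have : Algebra.IsAlgebraic ℚ (AlgebraicClosure K) := Algebra.IsAlgebraic.trans ℚ K _
  have : IsAlgClosure ℚ (AlgebraicClosure K) := ⟨inferInstance, inferInstance⟩
  let e : AlgebraicClosure K ≃ₐ[ℚ] Ω := IsAlgClosure.equiv ℚ (AlgebraicClosure K) Ω
  let j : K →ₐ[ℚ] Ω := (e : AlgebraicClosure K →ₐ[ℚ] Ω).comp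
    ((Algebra.ofId K (AlgebraicClosure K)).restrictScalars ℚ)
  have hj : ∀ x, j x = e (algebraMap K (AlgebraicClosure K) x) := fun x => rfl
  let τ₀ : Ω ≃ₐ[ℚ] Ω := e.symm.trans ((σ.restrictScalars ℚ).trans e)
  have hτ₀ : ∀ x, τ₀ x = e (σ (e.symm x)) := fun x => rfl
  let b := Module.finBasis ℚ K
  let s : Set Ω := (Set.range fun k => j (b k)) ∪ (e '' s₀)
  have hs : s.Finite := (Set.finite_range _).union (hs₀.image _)
  have : Finite s := hs
  let LL := FiniteGaloisIntermediateField.adjoin ℚ s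
  have hsub : s ⊆ LL.toIntermediateField := FiniteGaloisIntermediateField.subset_adjoin ℚ s
  let L := LL.toIntermediateField
  have hjL : ∀ x, j x ∈ L := by
    intro x
    rw [← b.sum_repr x, map_sum]
    refine sum_mem fun k _ => ?_
    rw [map_smul]
    exact L.smul_mem (hsub (Or.inl ⟨k, rfl⟩))
  have hEq : (DivisionRing.toRatAlgebra : Algebra ℚ L) = L.algebra' := Subsingleton.elim _ _
  have hga : IsGalois ℚ L := by
    have h := LL.isGalois
    rw [hEq]
    exact h
  have hn : NumberField L :=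
    { to_charZero := inferInstance
      to_finiteDimensional := by
        have h := LL.finiteDimensional
        rw [hEq]
        exact h }
  have hnorm : @Normal ℚ L _ _ L.algebra' := by
    have h := LL.isGalois
    exact h.to_normal
  let i : K →+* L := (j : K →+* Ω).codRestrict L hjL
  have hi : ∀ x, (i x : Ω) = j x := fun x => rfl
  have hτex : ∃ τ' : L ≃+* L, ∀ x : L, ((τ' x : L) : Ω) = τ₀ x := by
    letI : Algebra ℚ L := L.algebra'
    haveI : Normal ℚ L := hnorm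
    exact ⟨(τ₀.restrictNormal L).toRingEquiv, fun x => τ₀.restrictNormal_commutes L x⟩
  obtain ⟨τ', hτ'⟩ := hτex
  let τ : L ≃ₐ[ℚ] L := AlgEquiv.ofRingEquiv (f := τ') (fun r => by
    rw [eq_ratCast, map_ratCast])
  have hτ : ∀ x : L, (τ x : Ω) = τ₀ x := hτ'
  let κ : L →+* AlgebraicClosure K := (e.symm : Ω →+* AlgebraicClosure K).comp L.subtype
  have hκ : ∀ x : L, κ x = e.symm (x : Ω) := fun x => rfl
  refine ⟨L, inferInstance, inferInstance, inferInstance, i, τ, κ, ?_, ?_, ?_⟩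
  · intro x
    rw [hκ, hi, hj, e.symm_apply_apply]
  · intro x
    rw [hκ, hτ, hτ₀, e.symm_apply_apply, hκ]
  · intro x hx
    refine ⟨⟨e x, hsub (Or.inr ⟨x, hx, rfl⟩)⟩, ?_⟩
    rw [hκ]
    exact e.symm_apply_apply x

lemma exists_L (K : Type u) [Field K] [NumberField K] (s₀ : Set (AlgebraicClosure K))
    (hs₀ : s₀.Finite) (σ : AlgebraicClosure K ≃ₐ[K] AlgebraicClosure K) :
    ∃ (L : Type) (_ : Field L) (_ : NumberField L) (_ : IsGalois ℚ L) (i : K →+* L)
      (τ : L ≃ₐ[ℚ] L) (κ : L →+* AlgebraicClosure K),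
      (∀ x, κ (i x) = algebraMap K (AlgebraicClosure K) x) ∧ (∀ x, κ (τ x) = σ (κ x)) ∧
        ∀ x ∈ s₀, ∃ y : L, κ y = x :=
  @exists_L_aux (AlgebraicClosure ℚ) _ (AlgebraicClosure.instAlgebra ℚ) inferInstance inferInstance
    inferInstance K _ _ s₀ hs₀ σ

end Pool.Agent.TH120.Sec
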