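import Pool.Agent.H16.HE.S8.W417.SecC.D2

/-!
# Density zero in `(𝓞 K)^d` by congruence conditions modulo squares of primes
-/

set_option autoImplicit false

namespace Pool.Agent.TH120.Sec

open NumberField IsDedekindDomain

universe u

/-- reduction of the coordinates -/
def red {R : Type u} [CommRing R] (I : Ideal R) (d : ℕ) (a : Fin d → R) : Fin d → R ⧸ I :=
  fun i => Ideal.Quotient.mk I (a i)

/-- density zero in `(𝓞 K)^d` -/
def DZ {K : Type u} [Field K] (d : ℕ) (E : Set (Fin d → 𝓞 K)) : Prop :=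
  ∀ ε : ℝ, 0 < ε → ∃ I : Ideal (𝓞 K), I ≠ ⊥ ∧
    (Set.ncard (red I d '' E) : ℝ) ≤ ε * (Nat.card (𝓞 K ⧸ I) : ℝ) ^ d

theorem countd {R : Type u} [CommRing R] (I : Ideal R) (ι : Type u) [Fintype ι] (B : ι → Ideal R)
    (e : (R ⧸ I) ≃+* ((v : ι) → R ⧸ B v))
    (he : ∀ (a : R) (v : ι), e (Ideal.Quotient.mk _ a) v = Ideal.Quotient.mk _ a)
    (hfin : ∀ v, Finite (R ⧸ B v)) (d : ℕ) (E : Set (Fin d → R))
    (S : (v : ι) → Set (Fin d → R ⧸ B v)) (hE : ∀ a ∈ E, ∀ v, red (B v) d a ∈ S v) :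
    (red I d '' E).ncard ≤ ∏ v, (S v).ncard := by
  classical
  let e' : (Fin d → R ⧸ I) → ((v : ι) → (Fin d → R ⧸ B v)) := fun x v i => e (x i) v
  have he' : Function.Injective e' := by
    intro x y h
    funext i
    apply e.injective
    funext v
    exact congrFun (congrFun h v) i
  have himg : (e' '' (red I d '' E)) ⊆ Set.pi Set.univ S := by
    rintro _ ⟨_, ⟨a, ha, rfl⟩, rfl⟩ v _
    have h1 : e' (red I d a) v = red (B v) d a := by
      funext i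
      exact he (a i) v
    rw [h1]
    exact hE a ha v
  rw [← Set.ncard_image_of_injective _ he']
  have h2 : (Set.pi Set.univ S).ncard = ∏ v, (S v).ncard := by
    rw [← Nat.card_coe_set_eq, Nat.card_congr (Equiv.Set.univPi _), Nat.card_pi]
    simp_rw [Nat.card_coe_set_eq]
  rw [← h2]
  exact Set.ncard_le_ncard himg (Set.toFinite _)

lemma prod_bound {ι : Type*} (T : Finset ι) (s : T → ℝ) (c n : ι → ℝ) (h0 : ∀ v, 0 ≤ s v)
    (h : ∀ v : T, s v ≤ c v * n v) : ∏ v : T, s v ≤ (∏ v ∈ T, c v) * ∏ v ∈ T, n v := by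
  rw [← Finset.prod_mul_distrib, ← Finset.prod_coe_sort T]
  exact Finset.prod_le_prod (fun v _ => h0 v) (fun v _ => h v)

/-- **Density zero from congruence conditions.** -/
theorem dz_of_supply {K : Type u} [Field K] [NumberField K] (d : ℕ)
    (P : HeightOneSpectrum (𝓞 K) → Prop)
    (S : (v : HeightOneSpectrum (𝓞 K)) → Set (Fin d → 𝓞 K ⧸ v.asIdeal ^ 2)) (δ : ℝ)
    (hsup : ∀ ε : ℝ, 0 < ε → ∃ T : Finset (HeightOneSpectrum (𝓞 K)), (∀ v ∈ T, P v) ∧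
      ∏ v ∈ T, (1 - δ * (1 / (Ideal.absNorm v.asIdeal : ℝ) -
        1 / (Ideal.absNorm v.asIdeal : ℝ) ^ 2)) < ε)
    (hcard : ∀ v, P v → ((S v).ncard : ℝ) ≤ (1 - δ * (1 / (Ideal.absNorm v.asIdeal : ℝ) -
        1 / (Ideal.absNorm v.asIdeal : ℝ) ^ 2)) * ((Ideal.absNorm v.asIdeal : ℝ) ^ 2) ^ d)
    (E : Set (Fin d → 𝓞 K)) (hE : ∀ a ∈ E, ∀ v, P v → red (v.asIdeal ^ 2) d a ∈ S v) :
    DZ d E := by
  classical
  intro ε hε
  obtain ⟨T, hT, hTε⟩ := hsup ε hε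
  obtain ⟨e, he⟩ := Pool.Agent.W417.SecC.D2.crt T
  have hfin : ∀ v : T, Finite (𝓞 K ⧸ v.1.asIdeal ^ 2) := by
    intro v
    apply Nat.finite_of_card_ne_zero
    rw [Pool.Agent.W417.SecC.D2.card_sq]
    exact pow_ne_zero _ (Pool.Agent.W417.SecC.D2.norm_pos _).ne'
  have hcardI : (Nat.card (𝓞 K ⧸ ∏ v ∈ T, v.asIdeal ^ 2) : ℝ) =
      ∏ v ∈ T, (Ideal.absNorm v.asIdeal : ℝ) ^ 2 := by
    rw [Nat.card_congr e.toEquiv, Nat.card_pi, ← Finset.prod_coe_sort T]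
    push_cast
    refine Finset.prod_congr rfl fun v _ => ?_
    rw [Pool.Agent.W417.SecC.D2.card_sq]
    push_cast
    rfl
  refine ⟨∏ v ∈ T, v.asIdeal ^ 2, ?_, ?_⟩
  · exact Finset.prod_ne_zero_iff.2 fun v _ => pow_ne_zero _ v.ne_bot
  have hE' : ∀ a ∈ E, ∀ v : T, red (v.1.asIdeal ^ 2) d a ∈ S v.1 :=
    fun a ha v => hE a ha v.1 (hT v.1 v.2)
  have h1 := countd (∏ v ∈ T, v.asIdeal ^ 2) T (fun v => v.1.asIdeal ^ 2) e he hfin d E
    (fun v => S v.1) hE'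
  have h1' : ((red (∏ v ∈ T, v.asIdeal ^ 2) d '' E).ncard : ℝ) ≤
      ∏ v : T, ((S v.1).ncard : ℝ) := by
    exact_mod_cast h1
  refine h1'.trans ?_
  have h2 := prod_bound T (fun v : T => ((S v.1).ncard : ℝ))
    (fun v => (1 - δ * (1 / (Ideal.absNorm v.asIdeal : ℝ) -
        1 / (Ideal.absNorm v.asIdeal : ℝ) ^ 2)))
    (fun v => ((Ideal.absNorm v.asIdeal : ℝ) ^ 2) ^ d) (fun _ => Nat.cast_nonneg _)
    (fun v => hcard v.1 (hT v.1 v.2))
  refine h2.trans ?_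
  rw [Finset.prod_pow, hcardI]
  exact mul_le_mul_of_nonneg_right hTε.le
    (pow_nonneg (Finset.prod_nonneg fun _ _ => sq_nonneg _) d)

end Pool.Agent.TH120.Sec
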