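import Pool.Agent.H16.HE.S8.W723.SecC.D1d

/-!
# Many primes with a given Frobenius element
-/

set_option autoImplicit false

namespace Pool.Agent.TH120.Sec

open Polynomial NumberField IsDedekindDomain
open Pool.Agent.W401.Cheb

universe u

/-- many places: the product becomes small -/
lemma many' {ι : Type*} (S : Set ℕ) (hSp : ∀ p ∈ S, p.Prime)
    (hS : ∀ B : ℝ, ∃ N : ℕ, B ≤ ∑ n ∈ Finset.range N,
      Set.indicator S (fun _ => (1 : ℝ)) n * (1 / ((n : ℝ) + 1)))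
    (norm : ι → ℕ) (P : ι → Prop) (hv : ∀ p ∈ S, ∃ i, P i ∧ norm i = p) (δ : ℝ) (hδ : 0 < δ)
    (hδ1 : δ ≤ 1) (ε : ℝ) (hε : 0 < ε) :
    ∃ T : Finset ι, (∀ i ∈ T, P i) ∧
      ∏ i ∈ T, (1 - δ * (1 / (norm i : ℝ) - 1 / (norm i : ℝ) ^ 2)) < ε := by
  classical
  have hι : Nonempty ι ∨ ¬ ∃ p, p ∈ S := by
    by_cases h : ∃ p, p ∈ S
    · obtain ⟨p, hp⟩ := h
      obtain ⟨i, _⟩ := hv p hp
      exact Or.inl ⟨i⟩
    · exact Or.inr h
  have hne : ∃ p, p ∈ S := by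
    by_contra h
    push Not at h
    obtain ⟨N, hN⟩ := hS 1
    have : ∑ n ∈ Finset.range N, Set.indicator S (fun _ => (1 : ℝ)) n * (1 / ((n : ℝ) + 1)) = 0 :=
      Finset.sum_eq_zero fun n _ => by rw [Set.indicator_of_notMem (h n), zero_mul]
    rw [this] at hN
    norm_num at hN
  haveI : Nonempty ι := hι.resolve_right (fun h => h hne)
  choose! v hvP hvn using hv
  obtain ⟨N, hN⟩ := hS (2 * (- Real.log ε + 1) / δ)
  set U : Finset ℕ := (Finset.range N).filter (fun n => n ∈ S) with hU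
  have hinj : Set.InjOn v (U : Set ℕ) := by
    intro a ha b hb hab
    have ha' : a ∈ S := (Finset.mem_filter.mp (Finset.mem_coe.mp ha)).2
    have hb' : b ∈ S := (Finset.mem_filter.mp (Finset.mem_coe.mp hb)).2
    rw [← hvn a ha', ← hvn b hb', hab]
  refine ⟨U.image v, ?_, ?_⟩
  · intro i hi
    obtain ⟨p, hp, rfl⟩ := Finset.mem_image.mp hi
    exact hvP p (Finset.mem_filter.mp hp).2
  · rw [Finset.prod_image hinj]
    have h1 : ∏ p ∈ U, (1 - δ * (1 / (norm (v p) : ℝ) - 1 / (norm (v p) : ℝ) ^ 2)) =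
        ∏ p ∈ U, (1 - δ * (1 / (p : ℝ) - 1 / (p : ℝ) ^ 2)) := by
      refine Finset.prod_congr rfl fun p hp => ?_
      rw [hvn p (Finset.mem_filter.mp hp).2]
    rw [h1]
    have hp2 : ∀ p ∈ U, (2 : ℝ) ≤ p := fun p hp => by
      exact_mod_cast (hSp p (Finset.mem_filter.mp hp).2).two_le
    have hpos : ∀ p ∈ U, 0 ≤ 1 / (p : ℝ) - 1 / (p : ℝ) ^ 2 := fun p hp => by
      have h2 := hp2 p hp
      rw [sub_nonneg, div_le_div_iff₀ (by positivity) (by linarith)]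
      nlinarith
    refine (Pool.Agent.W723.SecC.prod_small U (fun p => δ * (1 / (p : ℝ) - 1 / (p : ℝ) ^ 2))
      fun p hp => ?_).trans_lt ?_
    · have h2 := hp2 p hp
      have h3 : 1 / (p : ℝ) ≤ 1 := by rw [div_le_one (by linarith)]; linarith
      have h4 : 0 ≤ 1 / (p : ℝ) ^ 2 := by positivity
      have h5 : 1 / (p : ℝ) - 1 / (p : ℝ) ^ 2 ≤ 1 := by linarith
      nlinarith [hpos p hp]
    · have h2 : ∑ n ∈ Finset.range N,
          Set.indicator S (fun _ => (1 : ℝ)) n * (1 / ((n : ℝ) + 1)) ≤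
          2 * ∑ p ∈ U, (1 / (p : ℝ) - 1 / (p : ℝ) ^ 2) := by
        rw [hU, Finset.sum_filter, Finset.mul_sum]
        refine Finset.sum_le_sum fun n hn => ?_
        by_cases hnS : n ∈ S
        · rw [Set.indicator_of_mem hnS, if_pos hnS, one_mul]
          have h3 : (2 : ℝ) ≤ n := by exact_mod_cast (hSp n hnS).two_le
          rw [show 2 * (1 / (n : ℝ) - 1 / (n : ℝ) ^ 2) = (2 * n - 2) / (n : ℝ) ^ 2 by
            field_simp]
          rw [div_le_div_iff₀ (by linarith) (by positivity)]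
          nlinarith
        · rw [Set.indicator_of_notMem hnS, if_neg hnS]
          simp
      have h3 : (- Real.log ε + 1) ≤ δ * ∑ p ∈ U, (1 / (p : ℝ) - 1 / (p : ℝ) ^ 2) := by
        have h4 := hN.trans h2
        rw [div_le_iff₀ hδ] at h4
        linarith
      rw [← Finset.mul_sum]
      calc Real.exp (- (δ * ∑ p ∈ U, (1 / (p : ℝ) - 1 / (p : ℝ) ^ 2)))
          < Real.exp (Real.log ε) := Real.exp_lt_exp.mpr (by linarith)
        _ = ε := Real.exp_log hε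

/-- **Supply of primes.** -/
theorem supply {K : Type u} [Field K] [NumberField K] {L : Type} [Field L] [NumberField L]
    [IsGalois ℚ L] (i : K →+* L) (τ : L ≃ₐ[ℚ] L) (hτi : ∀ x, τ (i x) = i x) (E : 𝓞 L)
    (hE : E ≠ 0) (P : HeightOneSpectrum (𝓞 K) → Prop)
    (hP : ∀ (p : ℕ) [Fact p.Prime] (φ : 𝓞 L →+* AlgebraicClosure (ZMod p)), HasFrob p φ τ →
      φ E ≠ 0 → ∀ v : HeightOneSpectrum (𝓞 K),
        (∀ x, x ∈ v.asIdeal ↔ φ (RingOfIntegers.mapRingHom i x) = 0) →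
        Ideal.absNorm v.asIdeal = p →
        (∀ x, φ (RingOfIntegers.mapRingHom i x) ^ p = φ (RingOfIntegers.mapRingHom i x)) → P v)
    (δ : ℝ) (hδ : 0 < δ) (hδ1 : δ ≤ 1) (ε : ℝ) (hε : 0 < ε) :
    ∃ T : Finset (HeightOneSpectrum (𝓞 K)), (∀ v ∈ T, P v) ∧
      ∏ v ∈ T, (1 - δ * (1 / (Ideal.absNorm v.asIdeal : ℝ) -
        1 / (Ideal.absNorm v.asIdeal : ℝ) ^ 2)) < ε := by
  classical
  let iO : 𝓞 K →+* 𝓞 L := RingOfIntegers.mapRingHom i
  have hiO : ∀ x, ((iO x : 𝓞 L) : L) = i x := fun x => rfl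
  have hsmul : ∀ x : 𝓞 L, ((τ • x : 𝓞 L) : L) = τ x := fun x => rfl
  have hτO : ∀ x, τ • (iO x) = iO x := by
    intro x
    apply RingOfIntegers.ext
    rw [hsmul, hiO, hτi]
  obtain ⟨m, hm, hm'⟩ := Pool.Agent.W723.SecC.nz L _ hE
  obtain ⟨δ', C', hδpos, hcount⟩ := Pool.Agent.W723.SecC.count L τ m hm
  refine many' (Pool.Agent.W723.SecC.frobSet L τ m) (fun p hp => hp.1)
    (Pool.Agent.W723.SecC.diverge _ δ' C' hδpos hcount)
    (fun v : HeightOneSpectrum (𝓞 K) => Ideal.absNorm v.asIdeal) P ?_ δ hδ hδ1 ε hε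
  intro p hp
  obtain ⟨hpp, hpm, hxp⟩ := hp
  have : Fact p.Prime := ⟨hpp⟩
  have hex : ∃ φ : 𝓞 L →+* AlgebraicClosure (ZMod p), HasFrob p φ τ := by
    unfold xp at hxp
    rw [dif_pos hpp] at hxp
    by_contra h
    push Not at h
    apply hxp
    rw [Nat.card_eq_zero]
    left
    exact ⟨fun x => h x.1 x.2⟩
  obtain ⟨φ, hφ⟩ := hex
  have hφE : φ E ≠ 0 := by
    refine hm' _ φ ?_
    intro h
    rw [CharP.cast_eq_zero_iff (AlgebraicClosure (ZMod p)) p] at h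
    exact hpm h
  let ψ : 𝓞 K →+* AlgebraicClosure (ZMod p) := φ.comp iO
  have hψ : ∀ x, ψ x ^ p = ψ x := by
    intro x
    have h1 := hφ (iO x)
    rw [hτO] at h1
    exact h1.symm
  have hnorm := Pool.Agent.W723.SecC.absNorm_ker K p (AlgebraicClosure (ZMod p)) ψ hψ
  have hprime : (RingHom.ker ψ).IsPrime := RingHom.ker_isPrime ψ
  have hbot : RingHom.ker ψ ≠ ⊥ := by
    intro h
    rw [h, Ideal.absNorm_bot] at hnorm
    exact hpp.ne_zero hnorm.symm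
  exact ⟨⟨RingHom.ker ψ, hprime, hbot⟩,
    hP p φ hφ hφE _ (fun x => RingHom.mem_ker) hnorm hψ, hnorm⟩

end Pool.Agent.TH120.Sec
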